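import Pool.Agent.ANI.Stmts
import Pool.Agent.Helper89_LQD.TOR

/-!
# Anderson (2b), block I0, row SMT (helper77): the kernel for small times
-/

set_option autoImplicit false

noncomputable section

namespace Pool.Agent.ANI.H77

open Complex Finset
open Pool.Agent.LE.QD Pool.Agent.LE.QD.H89

theorem ps_eq (t : ℝ) (N : ℕ) (θ : ℝ) :
    ps t N θ = ∑ m ∈ range N, (I * ((2 * t * Real.cos θ : ℝ) : ℂ)) ^ m / (m.factorial : ℂ) := by
  unfold ps
  refine sum_congr rfl fun m _ => ?_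
  rw [← cos_pow]
  rw [show I * ((2 * t * Real.cos θ : ℝ) : ℂ) = I * (t : ℂ) * ((2 * Real.cos θ : ℝ) : ℂ) by
    push_cast; ring, mul_pow]
  ring

theorem tail (t : ℝ) (k : ℕ) (ht : 12 * |t| ≤ k) (θ : ℝ) :
    ‖exp (I * ((2 * t * Real.cos θ : ℝ) : ℂ)) - ps t k θ‖ ≤ 2 * (1 / 2) ^ k := by
  rw [ps_eq]
  generalize hx : I * ((2 * t * Real.cos θ : ℝ) : ℂ) = x
  have hxn : ‖x‖ ≤ k / 6 := by
    rw [← hx, norm_mul, norm_I, one_mul, norm_real, Real.norm_eq_abs, abs_mul, abs_mul,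
      abs_of_pos (show (0 : ℝ) < 2 by norm_num)]
    have h1 := Real.abs_cos_le_one θ
    have h2 : |t| * |Real.cos θ| ≤ |t| * 1 := mul_le_mul_of_nonneg_left h1 (abs_nonneg t)
    nlinarith
  have h3 : ‖x‖ / k.succ ≤ 1 / 2 := by
    rw [div_le_iff₀ (by positivity)]
    push_cast
    have : (0 : ℝ) ≤ k := Nat.cast_nonneg k
    linarith
  refine (exp_bound' h3).trans ?_
  rw [mul_comm]
  refine mul_le_mul_of_nonneg_left ?_ (by norm_num)
  have h4 : ‖x‖ ^ k / (k.factorial : ℝ) ≤ (k / 6 : ℝ) ^ k / (k.factorial : ℝ) :=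
    div_le_div_of_nonneg_right (pow_le_pow_left₀ (norm_nonneg _) hxn k) (by positivity)
  refine h4.trans ?_
  have h5 : (k : ℝ) ^ k / (k.factorial : ℝ) ≤ Real.exp k :=
    Real.pow_div_factorial_le_exp (k : ℝ) (by positivity) k
  have h6 : Real.exp k ≤ 3 ^ k := by
    rw [show (k : ℝ) = k * 1 by ring, Real.exp_nat_mul]
    refine pow_le_pow_left₀ (Real.exp_pos 1).le ?_ k
    have := Real.exp_one_lt_d9
    linarith
  calc (k / 6 : ℝ) ^ k / (k.factorial : ℝ) = (1 / 6) ^ k * ((k : ℝ) ^ k / (k.factorial : ℝ)) := by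
        rw [div_pow, one_div, inv_pow]
        ring
    _ ≤ (1 / 6) ^ k * 3 ^ k :=
        mul_le_mul_of_nonneg_left (h5.trans h6) (by positivity)
    _ = (1 / 2) ^ k := by
        rw [← mul_pow]
        norm_num

theorem coef (M : ℕ) [NeZero M] (n : ZMod M) (m j : ℕ) (hm : m < n.valMinAbs.natAbs)
    (hj : j ≤ m) : n + ((2 * (j : ℤ) - m : ℤ) : ZMod M) ≠ 0 := by
  intro h
  have h1 : ((n.valMinAbs + (2 * (j : ℤ) - m) : ℤ) : ZMod M) = 0 := by
    rw [Int.cast_add, ZMod.coe_valMinAbs]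
    exact h
  rw [ZMod.intCast_zmod_eq_zero_iff_dvd] at h1
  have h2 : n.valMinAbs.natAbs ≤ M / 2 := ZMod.natAbs_valMinAbs_le n
  have h3 : n.valMinAbs + (2 * (j : ℤ) - m) = 0 := by
    apply Int.eq_zero_of_abs_lt_dvd h1
    rw [abs_lt]
    omega
  omega

/-- SMT -/
theorem smt : SmtStmt := by
  intro M _ t n ht
  generalize hk : n.valMinAbs.natAbs = k at ht
  have hM : (0 : ℝ) < M := Nat.cast_pos.2 (NeZero.pos M)
  have h0 : (∑ p : ZMod M, ZMod.stdAddChar (p * n) * ps t k (an M p)) / (M : ℂ) = 0 := by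
    rw [psd]
    refine sum_eq_zero fun m hm => ?_
    rw [sum_eq_zero, mul_zero]
    intro j hj
    rw [if_neg, mul_zero]
    refine coef M n m j ?_ ?_
    · rw [hk]
      exact mem_range.1 hm
    · have := mem_range.1 hj
      omega
  have h1 : jt M t n = (∑ p : ZMod M, ZMod.stdAddChar (p * n) *
      (exp (I * ((2 * t * Real.cos (an M p) : ℝ) : ℂ)) - ps t k (an M p))) / (M : ℂ) := by
    have h2 : jt M t n = (∑ p : ZMod M, ZMod.stdAddChar (p * n) *
      exp (I * ((2 * t * Real.cos (an M p) : ℝ) : ℂ))) / (M : ℂ) := rfl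
    rw [h2, ← sub_zero (_ / _), ← h0, ← sub_div, ← sum_sub_distrib]
    refine congrArg (· / (M : ℂ)) (sum_congr rfl fun p _ => ?_)
    rw [mul_sub]
  rw [h1, norm_div, norm_natCast, div_le_iff₀ hM]
  refine (norm_sum_le _ _).trans ?_
  refine (sum_le_card_nsmul _ _ (2 * (1 / 2) ^ k) fun p _ => ?_).trans ?_
  · rw [norm_mul, AddChar.norm_apply, one_mul]
    exact tail t k ht (an M p)
  · rw [card_univ, ZMod.card, nsmul_eq_mul, mul_comm]

end Pool.Agent.ANI.H77
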